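import Pool.Agent.H503R3.QCI.Tri
import Pool.Agent.H503R3.QCI.Graded

/-! # The complete intersections `x_i ^ 2`, `y ^ e - g(x)` with `g` squarefree of degree `e` -/

set_option autoImplicit false

namespace Pool.Agent.Y86.QE

open MvPolynomial H503R3.QCI

universe u

variable {F : Type u} [Field F]

/-- sets of `e` indices -/
abbrev Sq (a e : ℕ) : Type := {T : Finset (Fin a) // T.card = e}

section family

variable {a e : ℕ} (g : Sq a e → F)

/-- The degrees `2, …, 2, e`. -/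
def fdg (a e : ℕ) : Fin (a + 1) → ℕ := Fin.addCases (fun _ => 2) (fun _ => e)

/-- The squarefree monomial of a set of the first `a` variables. -/
noncomputable def mo (a : ℕ) (T : Finset (Fin a)) : MvPolynomial (Fin (a + 1)) F :=
  ∏ t ∈ T, X (Fin.castAdd 1 t)

/-- The lower order terms of the family. -/
noncomputable def lot : Fin (a + 1) → MvPolynomial (Fin (a + 1)) F :=
  Fin.addCases (fun _ => 0) (fun _ => ∑ T : Sq a e, g T • mo a T.1)

/-- The family `x_i ^ 2`, `y ^ e - g(x)` with `g` a squarefree form of degree `e`. -/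
noncomputable def fa : Fin (a + 1) → MvPolynomial (Fin (a + 1)) F :=
  fun i => X i ^ fdg a e i - lot g i

lemma mo_homog (T : Finset (Fin a)) : (mo (F := F) a T).IsHomogeneous T.card := by
  have := IsHomogeneous.prod T (fun t => (X (Fin.castAdd 1 t) : MvPolynomial (Fin (a + 1)) F))
    (fun _ => 1) (fun t _ => isHomogeneous_X F _)
  simpa [mo] using this

lemma sum_mo_homog (w : Sq a e → F) :
    (∑ T : Sq a e, w T • mo a T.1 : MvPolynomial (Fin (a + 1)) F).IsHomogeneous e := by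
  refine IsHomogeneous.sum _ _ _ fun T _ => ?_
  have h := mo_homog (F := F) T.1
  rw [T.2] at h
  exact (homogeneousSubmodule _ F e).smul_mem _ h

lemma fa_homog (i : Fin (a + 1)) : (fa g i).IsHomogeneous (fdg a e i) := by
  unfold fa
  refine IsHomogeneous.sub (isHomogeneous_X_pow i _) ?_
  refine Fin.addCases (fun i => ?_) (fun j => ?_) i
  · simp only [lot, Fin.addCases_left]
    exact isHomogeneous_zero _ _ _
  · simp only [lot, Fin.addCases_right, fdg]
    exact sum_mo_homog g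

lemma lot_supported (i : Fin (a + 1)) : lot g i ∈ supported F {j | j < i} := by
  refine Fin.addCases (fun i => ?_) (fun j => ?_) i
  · simp only [lot, Fin.addCases_left]
    exact zero_mem _
  · simp only [lot, Fin.addCases_right]
    refine sum_mem fun T _ => ?_
    refine Subalgebra.smul_mem _ ?_ _
    refine prod_mem fun t _ => ?_
    rw [X_mem_supported]
    change Fin.castAdd 1 t < Fin.natAdd a j
    rw [Fin.lt_def]
    simp only [Fin.val_castAdd, Fin.val_natAdd]
    omega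

lemma fdg_pos (he : 1 ≤ e) (i : Fin (a + 1)) : 1 ≤ fdg a e i := by
  refine Fin.addCases (fun i => ?_) (fun j => ?_) i
  · simp [fdg]
  · simpa [fdg] using he

lemma fa_reg (he : 1 ≤ e) : Reg (fa g) := tri_reg (fun _ => rfl) (fdg_pos he) (lot_supported g)

lemma fa_socle_notMem (he : 1 ≤ e) :
    ∏ i, (X i : MvPolynomial (Fin (a + 1)) F) ^ (fdg a e i - 1) ∉
      Ideal.span (Set.range (fa g)) :=
  tri_socle (fun _ => rfl) (fdg_pos he) (lot_supported g)

lemma sum_fdg : ∑ i, (fdg a e i - 1) = a + (e - 1) := by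
  rw [Fin.sum_univ_add]
  simp [fdg]

lemma fa_socle (he : 1 ≤ e) : IsSocleDegree (Ideal.span (Set.range (fa g))) (a + (e - 1)) := by
  rw [← sum_fdg]
  exact isSocleDegree_ci (fa g) (fdg a e) (fa_homog g) (fdg_pos he) (fa_reg g he)

lemma socle_eq1 : ∏ i, (X i : MvPolynomial (Fin (a + 1)) F) ^ (fdg a e i - 1) =
    mo a Finset.univ * ∏ j : Fin 1, X (Fin.natAdd a j) ^ (e - 1) := by
  rw [Fin.prod_univ_add]
  simp [fdg, mo]

lemma socle_homog1 : (∏ i, (X i : MvPolynomial (Fin (a + 1)) F) ^ (fdg a e i - 1)).IsHomogeneous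
    (a + (e - 1)) := by
  rw [← sum_fdg]
  exact IsHomogeneous.prod _ _ _ fun i _ => isHomogeneous_X_pow i _

lemma sq_mem1 (t : Fin a) : (X (Fin.castAdd 1 t) : MvPolynomial (Fin (a + 1)) F) ^ 2 ∈
    Ideal.span (Set.range (fa g)) := by
  have : fa g (Fin.castAdd 1 t) = X (Fin.castAdd 1 t) ^ 2 := by
    simp [fa, fdg, lot]
  rw [← this]
  exact Ideal.subset_span ⟨_, rfl⟩

lemma cross_mem1 {T T₀ : Sq a e} (h : T ≠ T₀) :
    mo a T.1 * (mo a T₀.1ᶜ * ∏ j : Fin 1, X (Fin.natAdd a j) ^ (e - 1)) ∈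
      Ideal.span (Set.range (fa g)) := by
  obtain ⟨t, ht, ht0⟩ : ∃ t ∈ T.1, t ∉ T₀.1 := by
    by_contra hcon
    push Not at hcon
    exact h (Subtype.ext (Finset.eq_of_subset_of_card_le hcon (by rw [T.2, T₀.2])))
  have h1 : mo (F := F) a T.1 = X (Fin.castAdd 1 t) * mo a (T.1.erase t) :=
    (Finset.mul_prod_erase T.1 _ ht).symm
  have h2 : mo (F := F) a T₀.1ᶜ = X (Fin.castAdd 1 t) * mo a (T₀.1ᶜ.erase t) :=
    (Finset.mul_prod_erase T₀.1ᶜ _ (Finset.mem_compl.mpr ht0)).symm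
  rw [h1, h2]
  have h3 : (X (Fin.castAdd 1 t) * mo a (T.1.erase t) *
      (X (Fin.castAdd 1 t) * mo a (T₀.1ᶜ.erase t) * ∏ j : Fin 1, X (Fin.natAdd a j) ^ (e - 1)) :
        MvPolynomial (Fin (a + 1)) F) =
      (mo a (T.1.erase t) * mo a (T₀.1ᶜ.erase t) *
        ∏ j : Fin 1, X (Fin.natAdd a j) ^ (e - 1)) * X (Fin.castAdd 1 t) ^ 2 := by ring
  rw [h3]
  exact Ideal.mul_mem_left _ _ (sq_mem1 g t)

lemma self_eq1 (T₀ : Sq a e) :
    mo a T₀.1 * (mo a T₀.1ᶜ * ∏ j : Fin 1, X (Fin.natAdd a j) ^ (e - 1)) =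
      (∏ i, (X i : MvPolynomial (Fin (a + 1)) F) ^ (fdg a e i - 1)) := by
  rw [socle_eq1, ← mul_assoc]
  congr 1
  exact Finset.prod_mul_prod_compl T₀.1 _

/-- The squarefree forms of degree `e` embed. -/
lemma sq_inj {σ : Type} (he : 1 ≤ e) {J : Ideal (MvPolynomial σ F)}
    {bb : Fin (a + 1) → MvPolynomial σ F}
    (h1 : ∀ (p : MvPolynomial (Fin (a + 1)) F) (k : ℕ), p.IsHomogeneous k →
      p ∈ Ideal.span (Set.range (fa g)) → aeval bb p ∈ J)
    (h2 : ∀ p : MvPolynomial (Fin (a + 1)) F, p.IsHomogeneous (a + (e - 1)) →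
      p ∉ Ideal.span (Set.range (fa g)) → aeval bb p ∉ J)
    (w : Sq a e → F) (hw : aeval bb (∑ T : Sq a e, w T • mo (F := F) a T.1) ∈ J) :
    ∀ T, w T = 0 := by
  classical
  intro T₀
  by_contra hne
  have h3 := h2 _ (socle_homog1 (e := e)) (fa_socle_notMem g he)
  apply h3
  set v : MvPolynomial (Fin (a + 1)) F :=
    mo a T₀.1ᶜ * ∏ j : Fin 1, X (Fin.natAdd a j) ^ (e - 1) with hv
  have h4 := Ideal.mul_mem_right (aeval bb v) _ hw
  rw [← map_mul, Finset.sum_mul, ← Finset.add_sum_erase _ _ (Finset.mem_univ T₀), map_add,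
    map_sum] at h4
  have h5 : ∑ T ∈ Finset.univ.erase T₀, aeval bb (w T • mo (F := F) a T.1 * v) ∈ J := by
    refine sum_mem fun T hT => ?_
    rw [smul_mul_assoc, map_smul, Algebra.smul_def]
    apply Ideal.mul_mem_left
    have hvh : v.IsHomogeneous ((T₀.1ᶜ).card + ∑ _j : Fin 1, (e - 1)) :=
      (mo_homog _).mul (IsHomogeneous.prod _ _ _ fun i _ => isHomogeneous_X_pow _ (e - 1))
    exact h1 _ _ ((mo_homog T.1).mul hvh) (cross_mem1 g (Finset.ne_of_mem_erase hT))
  have h6 : aeval bb (w T₀ • mo (F := F) a T₀.1 * v) ∈ J := by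
    have := sub_mem h4 h5
    rwa [add_sub_cancel_right] at this
  rw [smul_mul_assoc, map_smul, hv, self_eq1, Algebra.smul_def] at h6
  have h7 := Ideal.mul_mem_left J (algebraMap F _ (w T₀)⁻¹) h6
  rwa [← mul_assoc, ← map_mul, inv_mul_cancel₀ hne, map_one, one_mul] at h7

lemma fa_last : fa g (Fin.natAdd a 0) = X (Fin.natAdd a 0) ^ e - ∑ T : Sq a e, g T • mo a T.1 := by
  simp [fa, fdg, lot]

lemma fa_init (t : Fin a) : (fa g (Fin.castAdd 1 t)).IsHomogeneous 2 := by
  have := fa_homog g (Fin.castAdd 1 t)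
  simpa [fdg] using this

end family

end Pool.Agent.Y86.QE
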