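import Pool.Agent.Y86.QE.Count
import Pool.Agent.Y86.QE.Fam

/-! # The dimension count for maps into algebras with relations of bounded degree -/

set_option autoImplicit false

namespace Pool.Agent.Y86.QE

open MvPolynomial H503R3.QCI

universe u

/-- the product of the variables of a word -/
noncomputable def wo {R σ : Type*} [CommSemiring R] {k : ℕ} (w : Fin k → σ) :
    MvPolynomial σ R := ∏ i, X (w i)

variable {F : Type u} [Field F]

lemma monomial_word {σ : Type} (k : ℕ) : ∀ m : σ →₀ ℕ, m.degree = k →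
    ∃ w : Fin k → σ, (monomial m (1 : F)) = wo w := by
  classical
  induction k with
  | zero =>
    intro m hm
    rw [(Finsupp.degree_eq_zero_iff m).mp hm]
    exact ⟨fun i => i.elim0, by simp [wo]⟩
  | succ k ih =>
    intro m hm
    have hm0 : m ≠ 0 := by
      rintro rfl
      simp at hm
    obtain ⟨l, hl⟩ := Finsupp.ne_iff.mp hm0
    have hl' : m l ≠ 0 := hl
    have h1 : Finsupp.single l 1 ≤ m := by
      rw [Finsupp.single_le_iff]
      omega
    obtain ⟨m', rfl⟩ := exists_add_of_le h1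
    have h2 : m'.degree = k := by
      rw [map_add, Finsupp.degree_single] at hm
      omega
    obtain ⟨w, hw⟩ := ih m' h2
    refine ⟨Fin.cons l w, ?_⟩
    have h3 : (monomial (Finsupp.single l 1 + m') (1 : F)) = X l * monomial m' 1 := by
      rw [X, monomial_mul, one_mul]
    rw [h3, hw, wo, wo, Fin.prod_univ_succ]
    simp

lemma word_span {σ : Type} {k : ℕ} {p : MvPolynomial σ F} (hp : p.IsHomogeneous k) :
    p ∈ Submodule.span F (Set.range fun w : Fin k → σ => (wo w : MvPolynomial σ F)) := by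
  rw [p.as_sum]
  refine sum_mem fun m hm => ?_
  have h1 : m.degree = k := by
    by_contra hc
    exact (mem_support_iff.mp hm) (hp.coeff_eq_zero hc)
  obtain ⟨w, hw⟩ := monomial_word (F := F) k m h1
  have h2 : monomial m (coeff m p) = coeff m p • (wo w : MvPolynomial σ F) := by
    rw [← hw, smul_monomial, smul_eq_mul, mul_one]
  rw [h2]
  exact Submodule.smul_mem _ _ (Submodule.subset_span ⟨w, rfl⟩)

/-- the embedding of the polynomials in `N` variables -/
noncomputable abbrev em {N : ℕ} : MvPolynomial (Fin N) F →ₐ[F] MvPolynomial ℕ F :=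
  rename (fun i : Fin N => (i : ℕ))

lemma em_word_span {N n k : ℕ} (hN : N ≤ n) {p : MvPolynomial (Fin N) F}
    (hp : p.IsHomogeneous k) :
    em p ∈ Submodule.span F (Set.range fun w : Fin k → Fin n =>
      (wo (fun i => ((w i : Fin n) : ℕ)) : MvPolynomial ℕ F)) := by
  have h1 : Submodule.span F (Set.range fun w : Fin k → Fin N =>
      (wo w : MvPolynomial (Fin N) F)) ≤
      (Submodule.span F (Set.range fun w : Fin k → Fin n =>
      (wo (fun i => ((w i : Fin n) : ℕ)) : MvPolynomial ℕ F))).comap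
        (em (F := F) (N := N)).toLinearMap := by
    rw [Submodule.span_le]
    rintro _ ⟨w, rfl⟩
    refine Submodule.subset_span ⟨fun i => Fin.castLE hN (w i), ?_⟩
    simp [wo]
  exact h1 (word_span hp)

lemma finrank_gr_le {N : ℕ} (J : Ideal (MvPolynomial (Fin N) F)) (j : ℕ) :
    Module.finrank F (gr J j) ≤ N ^ j := by
  have h1 : gr J j ≤ Submodule.span F (Set.range fun w : Fin j → Fin N =>
      (wo w : MvPolynomial (Fin N) F)) := fun x hx => word_span (mem_gr.mp hx).2
  have h2 : FiniteDimensional F (Submodule.span F (Set.range fun w : Fin j → Fin N =>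
      (wo w : MvPolynomial (Fin N) F))) := FiniteDimensional.span_of_finite F (Set.finite_range _)
  refine (Submodule.finrank_mono h1).trans ?_
  refine (finrank_range_le_card (R := F) (fun w : Fin j → Fin N =>
    (wo w : MvPolynomial (Fin N) F))).trans ?_
  simp

lemma exists_enum {V : Type*} [AddCommGroup V] [Module F V] [FiniteDimensional F V] {W : Type}
    [Fintype W] (h : Module.finrank F V ≤ Fintype.card W) :
    ∃ q : W → V, Submodule.span F (Set.range q) = ⊤ := by
  classical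
  obtain ⟨ι⟩ : Nonempty (Fin (Module.finrank F V) ↪ W) :=
    Function.Embedding.nonempty_of_card_le (by rwa [Fintype.card_fin])
  let b := Module.finBasis F V
  refine ⟨Function.extend ι b 0, ?_⟩
  rw [eq_top_iff, ← b.span_eq]
  refine Submodule.span_mono ?_
  rintro _ ⟨i, rfl⟩
  exact ⟨ι i, ι.injective.extend_apply _ _ _⟩

/-! ### Universal parameters -/

section univ

variable (K : ℕ) (ν : ℕ → ℕ) (n : ℕ)

/-- labels of the generators of an ideal: `ν j ^ j` generators of degree `j` -/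
abbrev Gen : Type := Σ j : Fin (K + 1), (Fin j → Fin (ν j))

/-- parameters: the coefficients of the generators and of `n` polynomials -/
abbrev Pr : Type := (Σ j : Fin (K + 1), (Fin j → Fin (ν j)) × (Fin j → Fin (ν j))) ⊕
  (Fin n × Σ s : Fin (K + 1), (Fin s → Fin (ν s)))

/-- generic generators -/
noncomputable def gG (F : Type u) [Field F] (γ : Gen K ν) :
    MvPolynomial ℕ (MvPolynomial (Pr K ν n) F) :=
  ∑ w : Fin γ.1 → Fin (ν γ.1), C (X (Sum.inl ⟨γ.1, γ.2, w⟩)) *
    wo (fun i => ((w i : Fin (ν γ.1)) : ℕ))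

/-- generic polynomials of degree at most `K` -/
noncomputable def gB (F : Type u) [Field F] (i : Fin n) :
    MvPolynomial ℕ (MvPolynomial (Pr K ν n) F) :=
  ∑ s : Fin (K + 1), ∑ w : Fin s → Fin (ν s), C (X (Sum.inr (i, ⟨s, w⟩))) *
    wo (fun i => ((w i : Fin (ν s)) : ℕ))

variable {K ν n}

lemma map_wo {k : ℕ} {ι : Type} (p : ι → F) (w : Fin k → ℕ) :
    map (eval p) (wo w : MvPolynomial ℕ (MvPolynomial ι F)) = wo w := by
  simp [wo]

lemma map_gG (p : Pr K ν n → F) (γ : Gen K ν) : map (eval p) (gG K ν n F γ) =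
    ∑ w : Fin γ.1 → Fin (ν γ.1), p (Sum.inl ⟨γ.1, γ.2, w⟩) •
      (wo (fun i => ((w i : Fin (ν γ.1)) : ℕ)) : MvPolynomial ℕ F) := by
  simp only [gG, map_sum, map_mul, map_C, eval_X, map_wo, smul_eq_C_mul]

lemma map_gB (p : Pr K ν n → F) (i : Fin n) : map (eval p) (gB K ν n F i) =
    ∑ s : Fin (K + 1), ∑ w : Fin s → Fin (ν s), p (Sum.inr (i, ⟨s, w⟩)) •
      (wo (fun i => ((w i : Fin (ν s)) : ℕ)) : MvPolynomial ℕ F) := by
  simp only [gB, map_sum, map_mul, map_C, eval_X, map_wo, smul_eq_C_mul]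

/-- generators of an ideal with relations of degree at most `D` -/
lemma exists_gens {N D : ℕ} (hD : D ≤ K) (hν : ∀ j ≤ D, N ≤ ν j)
    {J : Ideal (MvPolynomial (Fin N) F)} {S : Set (MvPolynomial (Fin N) F)}
    (hS : ∀ q ∈ S, ∃ e ≤ D, q.IsHomogeneous e) (hJ : J = Ideal.span S) :
    ∃ q : Gen K ν → MvPolynomial (Fin N) F, (∀ γ, (q γ).IsHomogeneous γ.1) ∧
      (∀ γ, D < γ.1 → q γ = 0) ∧ Ideal.span (Set.range q) = J := by
  have key : ∀ j : Fin (K + 1), ∃ q : (Fin j → Fin (ν j)) → MvPolynomial (Fin N) F,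
      (∀ w, (q w).IsHomogeneous j ∧ q w ∈ J) ∧ (D < j → ∀ w, q w = 0) ∧
      ((j : ℕ) ≤ D → ∀ x ∈ gr J j, x ∈ Submodule.span F (Set.range q)) := by
    intro j
    by_cases hj : (j : ℕ) ≤ D
    · obtain ⟨q, hq⟩ := exists_enum (F := F) (V := gr J j) (W := Fin j → Fin (ν j)) (by
        refine (finrank_gr_le J j).trans ?_
        rw [Fintype.card_fun, Fintype.card_fin, Fintype.card_fin]
        exact Nat.pow_le_pow_left (hν j hj) _)
      refine ⟨fun w => (q w : MvPolynomial (Fin N) F), fun w => ⟨(mem_gr.mp (q w).2).2,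
        (mem_gr.mp (q w).2).1⟩, fun h => absurd hj (not_le.mpr h), fun _ x hx => ?_⟩
      have h1 : (⟨x, hx⟩ : gr J j) ∈ Submodule.span F (Set.range q) := by
        rw [hq]
        exact Submodule.mem_top
      have h2 := Submodule.mem_map_of_mem (f := (gr J j).subtype) h1
      rw [Submodule.map_span, ← Set.range_comp] at h2
      exact h2
    · exact ⟨fun _ => 0, fun w => ⟨isHomogeneous_zero _ _ _, zero_mem _⟩, fun _ _ => rfl,
        fun h => absurd h hj⟩
  choose q hq1 hq2 hq3 using key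
  refine ⟨fun γ => q γ.1 γ.2, fun γ => (hq1 γ.1 γ.2).1, fun γ h => hq2 γ.1 h γ.2, ?_⟩
  apply le_antisymm
  · rw [Ideal.span_le]
    rintro _ ⟨γ, rfl⟩
    exact (hq1 γ.1 γ.2).2
  · conv_lhs => rw [hJ]
    rw [Ideal.span_le]
    intro x hx
    obtain ⟨e, he, hxe⟩ := hS x hx
    have h1 : x ∈ gr J e := mem_gr.mpr ⟨by rw [hJ]; exact Ideal.subset_span hx, hxe⟩
    have h2 := hq3 ⟨e, by omega⟩ he x h1
    have h3 : Submodule.span F (Set.range (q ⟨e, by omega⟩)) ≤
        (Ideal.span (Set.range fun γ : Gen K ν => q γ.1 γ.2)).restrictScalars F := by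
      rw [Submodule.span_le]
      rintro _ ⟨w, rfl⟩
      exact Ideal.subset_span ⟨⟨⟨e, by omega⟩, w⟩, rfl⟩
    exact h3 h2

/-- labels of the columns -/
abbrev Col (K : ℕ) (ν : ℕ → ℕ) (L n : ℕ) : Type := Gen K ν × Σ i : Fin (L + 1), (Fin i → Fin n)

lemma mem_words {N m L : ℕ} {q : Gen K ν → MvPolynomial (Fin N) F}
    (hq : ∀ γ, (q γ).IsHomogeneous γ.1) (hN : N ≤ m) {h : MvPolynomial (Fin N) F}
    (hh : h ∈ Ideal.span (Set.range q)) (hdeg : h.totalDegree ≤ L) :
    em h ∈ Submodule.span F (Set.range fun c : Col K ν L m =>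
      (wo (fun i => ((c.2.2 i : Fin m) : ℕ)) * em (q c.1) : MvPolynomial ℕ F)) := by
  set V := Submodule.span F (Set.range fun c : Col K ν L m =>
      (wo (fun i => ((c.2.2 i : Fin m) : ℕ)) * em (q c.1) : MvPolynomial ℕ F)) with hV
  have h1 : ∀ (i : ℕ), i ≤ L → ∀ x : MvPolynomial (Fin N) F, x.IsHomogeneous i → ∀ γ,
      em (q γ * x) ∈ V := by
    intro i hi x hx γ
    have h2 : Submodule.span F (Set.range fun w : Fin i → Fin m =>
        (wo (fun i => ((w i : Fin m) : ℕ)) : MvPolynomial ℕ F)) ≤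
        V.comap (LinearMap.mulRight F (em (q γ) : MvPolynomial ℕ F)) := by
      rw [Submodule.span_le]
      rintro _ ⟨w, rfl⟩
      exact Submodule.subset_span ⟨(γ, ⟨⟨i, by omega⟩, w⟩), rfl⟩
    have h3 := h2 (em_word_span hN hx)
    rw [mul_comm, map_mul]
    exact h3
  obtain ⟨c, hc⟩ := Ideal.mem_span_range_iff_exists_fun.mp hh
  have h4 : h = ∑ k ∈ Finset.range (L + 1), homogeneousComponent k h := by
    conv_lhs => rw [← sum_homogeneousComponent h]
    refine Finset.sum_subset ?_ ?_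
    · intro i hi
      rw [Finset.mem_range] at hi ⊢
      omega
    · intro i _ hi
      exact homogeneousComponent_eq_zero i h (by simpa using hi)
  rw [h4, map_sum]
  refine sum_mem fun k hk => ?_
  rw [Finset.mem_range] at hk
  have h5 : homogeneousComponent k h = ∑ γ, homogeneousComponent k (q γ * c γ) := by
    conv_lhs => rw [← hc]
    rw [map_sum]
    exact Finset.sum_congr rfl fun γ _ => by rw [mul_comm]
  rw [h5, map_sum]
  refine sum_mem fun γ _ => ?_
  by_cases hγ : k < (γ.1 : ℕ)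
  · rw [comp_mul_of_lt (hq γ) hγ, map_zero]
    exact zero_mem _
  · obtain ⟨l, rfl⟩ := Nat.exists_eq_add_of_le (not_lt.mp hγ)
    rw [comp_mul (hq γ)]
    exact h1 l (by omega) _ (homogeneousComponent_isHomogeneous _ _) γ

lemma totalDegree_aeval_le {a e N D : ℕ} (g : Sq a e → F)
    {bb : Fin (a + 1) → MvPolynomial (Fin N) F} (hb : ∀ i, (bb i).totalDegree ≤ D) :
    (aeval bb (fa g (Fin.natAdd a 0)) : MvPolynomial (Fin N) F).totalDegree ≤ D * e := by
  rw [fa_last, map_sub, map_pow, aeval_X, map_sum]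
  refine (totalDegree_sub _ _).trans (max_le ?_ ?_)
  · refine (totalDegree_pow _ _).trans ?_
    rw [mul_comm]
    exact Nat.mul_le_mul_right _ (hb _)
  · refine (totalDegree_finsetSum _ _).trans (Finset.sup_le fun T _ => ?_)
    rw [map_smul]
    refine (totalDegree_smul_le _ _).trans ?_
    rw [mo, map_prod]
    refine (totalDegree_finsetProd _ _).trans ?_
    simp only [aeval_X]
    refine (Finset.sum_le_card_nsmul _ _ D fun t _ => hb _).trans ?_
    rw [T.2, smul_eq_mul, mul_comm]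

/-- the columns of the squarefree monomials -/
noncomputable def U₁ (F : Type u) [Field F] (K : ℕ) (ν : ℕ → ℕ) (a e : ℕ) (T : Sq a e) :
    MvPolynomial ℕ (MvPolynomial (Pr K ν (a + 1)) F) :=
  ∏ t ∈ T.1, gB K ν (a + 1) F (Fin.castAdd 1 t)

/-- the columns of the multiples of the relations -/
noncomputable def U₂ (F : Type u) [Field F] (K : ℕ) (ν : ℕ → ℕ) (a e : ℕ)
    (c : Col K ν (K * e) (ν 0)) : MvPolynomial ℕ (MvPolynomial (Pr K ν (a + 1)) F) :=
  wo (fun i => ((c.2.2 i : Fin (ν 0)) : ℕ)) * gG K ν (a + 1) F c.1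

/-- `g` is generic -/
def Gen1 (K : ℕ) (ν : ℕ → ℕ) {a e : ℕ} (g : Sq a e → F) : Prop :=
  GoodP (U₁ F K ν a e) (U₂ F K ν a e) (gB K ν (a + 1) F (Fin.natAdd a 0) ^ e) g

/-- **The dimension count.** -/
theorem core (K : ℕ) (ν : ℕ → ℕ) {a e : ℕ} (he : 1 ≤ e) {g : Sq a e → F} (hg : Gen1 K ν g)
    (N D : ℕ) (hD : D ≤ K) (hν : ∀ j ≤ D, N ≤ ν j)
    (J : Ideal (MvPolynomial (Fin N) F)) (S : Set (MvPolynomial (Fin N) F))
    (hS : ∀ q ∈ S, ∃ e ≤ D, q.IsHomogeneous e) (hJ : J = Ideal.span S)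
    (bb : Fin (a + 1) → MvPolynomial (Fin N) F) (hb : ∀ i, (bb i).totalDegree ≤ D)
    (h1 : ∀ (p : MvPolynomial (Fin (a + 1)) F) (k : ℕ), p.IsHomogeneous k →
        p ∈ Ideal.span (Set.range (fa g)) → aeval bb p ∈ J)
    (h2 : ∀ p : MvPolynomial (Fin (a + 1)) F, p.IsHomogeneous (a + (e - 1)) →
        p ∉ Ideal.span (Set.range (fa g)) → aeval bb p ∉ J) : False := by
  classical
  obtain ⟨q, hq1, hq2, hq3⟩ := exists_gens (K := K) (ν := ν) hD hν hS hJ
  -- the parameters
  have hgen : ∀ γ : Gen K ν, ∃ c : (Fin γ.1 → Fin (ν γ.1)) → F,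
      ∑ w, c w • (wo (fun i => ((w i : Fin (ν γ.1)) : ℕ)) : MvPolynomial ℕ F) = em (q γ) := by
    intro γ
    apply (Submodule.mem_span_range_iff_exists_fun F).mp
    by_cases hγ : (γ.1 : ℕ) ≤ D
    · exact em_word_span (hν _ hγ) (hq1 γ)
    · rw [hq2 γ (not_le.mp hγ), map_zero]
      exact zero_mem _
  have hpol : ∀ (i : Fin (a + 1)) (s : Fin (K + 1)), ∃ c : (Fin s → Fin (ν s)) → F,
      ∑ w, c w • (wo (fun i => ((w i : Fin (ν s)) : ℕ)) : MvPolynomial ℕ F) =
        em (homogeneousComponent s (bb i)) := by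
    intro i s
    apply (Submodule.mem_span_range_iff_exists_fun F).mp
    by_cases hs : (s : ℕ) ≤ D
    · exact em_word_span (hν _ hs) (homogeneousComponent_isHomogeneous _ _)
    · rw [homogeneousComponent_eq_zero _ _ (lt_of_le_of_lt (hb i) (not_le.mp hs)), map_zero]
      exact zero_mem _
  choose cg hcg using hgen
  choose cb hcb using hpol
  let p : Pr K ν (a + 1) → F := Sum.elim (fun x => cg ⟨x.1, x.2.1⟩ x.2.2)
    (fun x => cb x.1 x.2.1 x.2.2)
  have hp1 : ∀ γ, map (eval p) (gG K ν (a + 1) F γ) = em (q γ) := by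
    intro γ
    rw [map_gG, ← hcg γ]
    rfl
  have hp2 : ∀ i, map (eval p) (gB K ν (a + 1) F i) = em (bb i) := by
    intro i
    rw [map_gB]
    have h3 : bb i = ∑ s : Fin (K + 1), homogeneousComponent s (bb i) := by
      rw [← Finset.sum_range (fun s => homogeneousComponent s (bb i))]
      conv_lhs => rw [← sum_homogeneousComponent (bb i)]
      refine Finset.sum_subset ?_ ?_
      · intro k hk
        have := hb i
        rw [Finset.mem_range] at hk ⊢
        omega
      · intro k _ hk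
        exact homogeneousComponent_eq_zero k _ (by simpa using hk)
    conv_rhs => rw [h3, map_sum]
    refine Finset.sum_congr rfl fun s _ => ?_
    rw [← hcb i s]
    rfl
  have hmon : ∀ T : Sq a e, map (eval p) (U₁ F K ν a e T) =
      em (aeval bb (mo (F := F) a T.1)) := by
    intro T
    rw [U₁, map_prod, mo, map_prod, map_prod]
    refine Finset.prod_congr rfl fun t _ => ?_
    rw [hp2, aeval_X]
  have hcol : (fun c : Col K ν (K * e) (ν 0) => map (eval p) (U₂ F K ν a e c)) =
      fun c => (wo (fun i => ((c.2.2 i : Fin (ν 0)) : ℕ)) * em (q c.1) : MvPolynomial ℕ F) := by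
    funext c
    rw [U₂, map_mul, map_wo, hp1]
  have hinjv : Function.Injective (fun i : Fin N => (i : ℕ)) := Fin.val_injective
  have hkill : ∀ x ∈ Submodule.span F (Set.range fun c : Col K ν (K * e) (ν 0) =>
      (wo (fun i => ((c.2.2 i : Fin (ν 0)) : ℕ)) * em (q c.1) : MvPolynomial ℕ F)),
      killCompl hinjv x ∈ J := by
    have h3 : Submodule.span F (Set.range fun c : Col K ν (K * e) (ν 0) =>
        (wo (fun i => ((c.2.2 i : Fin (ν 0)) : ℕ)) * em (q c.1) : MvPolynomial ℕ F)) ≤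
        (J.restrictScalars F).comap
          (killCompl hinjv : MvPolynomial ℕ F →ₐ[F] MvPolynomial (Fin N) F).toLinearMap := by
      rw [Submodule.span_le]
      rintro _ ⟨c, rfl⟩
      change killCompl hinjv (wo (fun i => ((c.2.2 i : Fin (ν 0)) : ℕ)) * em (q c.1)) ∈ J
      rw [map_mul, em, killCompl_rename_app]
      apply Ideal.mul_mem_left
      rw [← hq3]
      exact Ideal.subset_span ⟨c.1, rfl⟩
    exact fun x hx => h3 hx
  have hw := hg p
  rw [hcol] at hw
  refine hw ?_ ?_
  · intro w hw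
    apply sq_inj g he h1 h2
    have h4 := hkill _ hw
    simp only [hmon] at h4
    have h5 : killCompl hinjv (∑ T : Sq a e, w T • em (aeval bb (mo (F := F) a T.1))) =
        aeval bb (∑ T : Sq a e, w T • mo (F := F) a T.1) := by
      rw [map_sum, map_sum]
      refine Finset.sum_congr rfl fun T _ => ?_
      rw [map_smul, map_smul, em, killCompl_rename_app]
    rwa [h5] at h4
  · have h3 : map (eval p) (gB K ν (a + 1) F (Fin.natAdd a 0) ^ e) -
        ∑ T : Sq a e, g T • map (eval p) (U₁ F K ν a e T) =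
        em (aeval bb (fa g (Fin.natAdd a 0))) := by
      simp only [hmon]
      rw [fa_last, map_pow, hp2, map_sub, map_pow, aeval_X, map_sum, map_sub, map_pow, map_sum]
      simp only [map_smul]
    rw [h3]
    apply mem_words hq1 (hν 0 (Nat.zero_le _))
    · rw [hq3]
      exact h1 _ _ (fa_homog g _) (Ideal.subset_span ⟨_, rfl⟩)
    · exact (totalDegree_aeval_le g hb).trans (Nat.mul_le_mul_right _ hD)

end univ

end Pool.Agent.Y86.QE
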