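import Pool.Agent.H503R3.QCI.Dep

/-! # Dimension count for linear systems which depend polynomially on parameters

As `H503R3.QCI.exists_bad`, but the auxiliary columns may be linearly dependent. -/

set_option autoImplicit false

namespace Pool.Agent.Y86.QE

open MvPolynomial H503R3.QCI

universe u

variable {F : Type u} [Field F]

/-- the exceptional polynomial for an infinite field -/
theorem exists_poly {ι κ : Type} {c₁ c₂ : Type} [Fintype ι] [Fintype c₁] [Fintype c₂]
    (Q : c₁ ⊕ c₂ → MvPolynomial κ (MvPolynomial ι F)) (b : MvPolynomial κ (MvPolynomial ι F))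
    (hcard : Fintype.card ι < Fintype.card c₁) :
    ∃ H : MvPolynomial c₁ F, H ≠ 0 ∧ ∀ (g : c₁ → F) (p : ι → F),
      LinearIndependent F (fun c => map (eval p) (Q c)) →
      (∃ w : c₂ → F, ∑ c, g c • map (eval p) (Q (Sum.inl c)) +
        ∑ c, w c • map (eval p) (Q (Sum.inr c)) = map (eval p) b) → eval g H = 0 := by
  classical
  let s : Finset (κ →₀ ℕ) := (Finset.univ.biUnion fun c => (Q c).support) ∪ b.support
  have hsQ : ∀ c (m : κ →₀ ℕ), m ∉ s → coeff m (Q c) = 0 := by
    intro c m hm
    by_contra h0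
    exact hm (Finset.mem_union_left _ (Finset.mem_biUnion.mpr
      ⟨c, Finset.mem_univ _, mem_support_iff.mpr h0⟩))
  let A : Matrix s (c₁ ⊕ c₂) (MvPolynomial ι F) := fun m c => coeff m.1 (Q c)
  let Dt : ((c₁ ⊕ c₂) → s) → MvPolynomial ι F := fun R => (A.submatrix R id).det
  let Nt : ((c₁ ⊕ c₂) → s) → c₁ → MvPolynomial ι F := fun R c =>
    ((A.submatrix R id).adjugate.mulVec (fun x => coeff (R x).1 b)) (Sum.inl c)
  have hdep : ∀ R : (c₁ ⊕ c₂) → s, ∃ H : MvPolynomial c₁ F, H ≠ 0 ∧
      (Dt R ≠ 0 → ∀ p : ι → F, eval p (Dt R) ≠ 0 →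
        eval (fun m => eval p (Nt R m) / eval p (Dt R)) H = 0) := by
    intro R
    by_cases hR : Dt R = 0
    · exact ⟨1, one_ne_zero, fun h => absurd hR h⟩
    · obtain ⟨H, h1, h2⟩ := exists_dep (ι := ι) (μ := c₁) hcard (Dt R) hR (Nt R)
      exact ⟨H, h1, fun _ => h2⟩
  choose H hH0 hH using hdep
  refine ⟨∏ R, H R, Finset.prod_ne_zero_iff.mpr fun R _ => hH0 R, fun g p hli hsol => ?_⟩
  let Ap : Matrix s (c₁ ⊕ c₂) F := fun m c => eval p (A m c)
  have hAp : LinearIndependent F (fun j => (fun i => Ap i j : s → F)) := by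
    rw [Fintype.linearIndependent_iff]
    intro w hw
    apply Fintype.linearIndependent_iff.mp hli
    ext m
    rw [coeff_sum]
    simp only [coeff_smul, coeff_map, coeff_zero, smul_eq_mul]
    by_cases hm : m ∈ s
    · have := congrFun hw ⟨m, hm⟩
      simpa [Ap, A] using this
    · exact Finset.sum_eq_zero fun c _ => by rw [hsQ c m hm, map_zero, mul_zero]
  obtain ⟨R, hR⟩ := exists_rows Ap hAp
  have hsub : Ap.submatrix R id = (A.submatrix R id).map (eval p) := rfl
  have hdet : (Ap.submatrix R id).det = eval p (Dt R) := by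
    rw [hsub]
    exact ((eval p).map_det _).symm
  rw [hdet] at hR
  have hDR : Dt R ≠ 0 := by
    intro h0; rw [h0, map_zero] at hR; exact hR rfl
  have hz := hH R hDR p hR
  have hval : (fun m => eval p (Nt R m) / eval p (Dt R)) = g := by
    funext c
    obtain ⟨w, hw⟩ := hsol
    let v : c₁ ⊕ c₂ → F := Sum.elim (fun c => g c) w
    have hv : (Ap.submatrix R id).mulVec v = fun x => eval p (coeff (R x).1 b) := by
      funext x
      have := congrArg (coeff (R x).1) hw
      simp only [coeff_add, coeff_sum, coeff_smul, coeff_map, smul_eq_mul] at this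
      rw [← this]
      simp only [Matrix.mulVec, dotProduct, Matrix.submatrix_apply, id, Fintype.sum_sum_type,
        v, Sum.elim_inl, Sum.elim_inr, Ap, A]
      congr 1 <;> exact Finset.sum_congr rfl fun _ _ => mul_comm _ _
    have h1 : (Ap.submatrix R id).adjugate.mulVec ((Ap.submatrix R id).mulVec v) =
        (Ap.submatrix R id).det • v := by
      rw [Matrix.mulVec_mulVec, Matrix.adjugate_mul, Matrix.smul_mulVec, Matrix.one_mulVec]
    rw [hv, hdet] at h1
    have h2 := congrFun h1 (Sum.inl c)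
    simp only [Pi.smul_apply, smul_eq_mul, v, Sum.elim_inl] at h2
    have h3 : eval p (Nt R c) = eval p (Dt R) * g c := by
      rw [← h2, hsub]
      simp only [Nt, Matrix.mulVec, dotProduct, map_sum, map_mul]
      refine Finset.sum_congr rfl fun x _ => ?_
      congr 1
      have := (eval p).map_adjugate (A.submatrix R id)
      have h4 := congrFun (congrFun this (Sum.inl c)) x
      simpa [RingHom.mapMatrix_apply, Matrix.map_apply] using h4
    rw [h3, mul_div_cancel_left₀ _ hR]
  rw [hval] at hz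
  rw [map_prod]
  exact Finset.prod_eq_zero (Finset.mem_univ R) hz

/-- `g` is not the solution of one of the linear systems -/
def GoodP {ι κ : Type} {c₁ c₂ : Type} [Fintype c₁]
    (Q₁ : c₁ → MvPolynomial κ (MvPolynomial ι F)) (Q₂ : c₂ → MvPolynomial κ (MvPolynomial ι F))
    (b : MvPolynomial κ (MvPolynomial ι F)) (g : c₁ → F) : Prop :=
  ∀ p : ι → F,
    (∀ w : c₁ → F, ∑ c, w c • map (eval p) (Q₁ c) ∈
      Submodule.span F (Set.range fun c => map (eval p) (Q₂ c)) → ∀ c, w c = 0) →
    map (eval p) b - ∑ c, g c • map (eval p) (Q₁ c) ∉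
      Submodule.span F (Set.range fun c => map (eval p) (Q₂ c))

/-- **Dimension count over a finite field**, with arbitrary auxiliary columns. -/
theorem good_fin {ι κ : Type} {c₁ c₂ : Type} [Fintype ι] [Fintype c₁] [Finite F]
    (Q₁ : c₁ → MvPolynomial κ (MvPolynomial ι F)) (Q₂ : c₂ → MvPolynomial κ (MvPolynomial ι F))
    (b : MvPolynomial κ (MvPolynomial ι F)) :
    Nat.card {g : c₁ → F // ¬ GoodP Q₁ Q₂ b g} ≤ Nat.card F ^ Fintype.card ι := by
  classical
  have hex : ∀ g : {g : c₁ → F // ¬ GoodP Q₁ Q₂ b g}, ∃ p : ι → F,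
      (∀ w : c₁ → F, ∑ c, w c • map (eval p) (Q₁ c) ∈
        Submodule.span F (Set.range fun c => map (eval p) (Q₂ c)) → ∀ c, w c = 0) ∧
      map (eval p) b - ∑ c, g.1 c • map (eval p) (Q₁ c) ∈
        Submodule.span F (Set.range fun c => map (eval p) (Q₂ c)) := by
    rintro ⟨g, hg⟩
    unfold GoodP at hg
    push Not at hg
    exact hg
  choose p hli hsol using hex
  have hinj : Function.Injective p := by
    intro g g' hgg
    have h1 := hli g
    have h2 := hsol g
    have h3 := hsol g'
    rw [← hgg] at h3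
    have h4 := sub_mem h3 h2
    have h5 : ∑ c, (g.1 c - g'.1 c) • map (eval (p g)) (Q₁ c) =
        (map (eval (p g)) b - ∑ c, g'.1 c • map (eval (p g)) (Q₁ c)) -
        (map (eval (p g)) b - ∑ c, g.1 c • map (eval (p g)) (Q₁ c)) := by
      simp only [sub_smul, Finset.sum_sub_distrib]
      ring
    rw [← h5] at h4
    refine Subtype.ext (funext fun c => ?_)
    exact sub_eq_zero.mp (h1 (fun c => g.1 c - g'.1 c) h4 c)
  have h4 := Nat.card_le_card_of_injective p hinj
  rwa [Nat.card_fun, Nat.card_eq_fintype_card (α := ι)] at h4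

/-- **Dimension count over an infinite field**, with arbitrary auxiliary columns. -/
theorem good_inf {ι κ : Type} {c₁ c₂ : Type} [Fintype ι] [Fintype c₁] [Fintype c₂] [Infinite F]
    (Q₁ : c₁ → MvPolynomial κ (MvPolynomial ι F)) (Q₂ : c₂ → MvPolynomial κ (MvPolynomial ι F))
    (b : MvPolynomial κ (MvPolynomial ι F))
    (hcard : Fintype.card ι < Fintype.card c₁) :
    ∃ H : MvPolynomial c₁ F, H ≠ 0 ∧ ∀ g : c₁ → F, eval g H ≠ 0 → GoodP Q₁ Q₂ b g := by
  classical
  have hQ : ∀ C : Set c₂, ∃ H : MvPolynomial c₁ F, H ≠ 0 ∧ ∀ (g : c₁ → F) (p : ι → F),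
      LinearIndependent F (fun c : c₁ ⊕ C => map (eval p)
        (Sum.elim Q₁ (fun c : C => Q₂ c.1) c)) →
      (∃ w : C → F, ∑ c, g c • map (eval p) (Q₁ c) +
        ∑ c, w c • map (eval p) (Q₂ c.1) = map (eval p) b) → eval g H = 0 := fun C =>
    exists_poly (Sum.elim Q₁ (fun c : C => Q₂ c.1)) b hcard
  choose H hH0 hH using hQ
  refine ⟨∏ C, H C, Finset.prod_ne_zero_iff.mpr fun C _ => hH0 C, fun g hg p hli hsol => ?_⟩
  set v : c₂ → MvPolynomial κ F := fun c => map (eval p) (Q₂ c) with hv
  obtain ⟨K, a, ha, hspan, hind⟩ := exists_linearIndependent' F v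
  set C : Set c₂ := Set.range a with hC
  set ev : K ≃ C := Equiv.ofInjective a ha with hev
  have hindC : LinearIndependent F (fun c : C => v c.1) := by
    have h1 := hind.comp ev.symm ev.symm.injective
    have h2 : (v ∘ a) ∘ ev.symm = fun c : C => v c.1 := by
      funext c
      obtain ⟨k, rfl⟩ := ev.surjective c
      simp only [Function.comp_apply, Equiv.symm_apply_apply]
      rfl
    rwa [h2] at h1
  have hspanC : Submodule.span F (Set.range fun c : C => v c.1) =
      Submodule.span F (Set.range v) := by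
    rw [← hspan]
    congr 1
    ext x
    constructor
    · rintro ⟨⟨c, k, rfl⟩, rfl⟩
      exact ⟨k, rfl⟩
    · rintro ⟨k, rfl⟩
      exact ⟨⟨a k, k, rfl⟩, rfl⟩
  rw [map_prod] at hg
  apply hg
  apply Finset.prod_eq_zero (Finset.mem_univ C)
  apply hH C g p
  · rw [Fintype.linearIndependent_iff]
    intro w hw
    rw [Fintype.sum_sum_type] at hw
    simp only [Sum.elim_inl, Sum.elim_inr] at hw
    have h1 : ∀ c, w (Sum.inl c) = 0 := by
      apply hli (fun c => w (Sum.inl c))
      rw [eq_neg_of_add_eq_zero_left hw]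
      refine neg_mem (sum_mem fun c _ => ?_)
      exact Submodule.smul_mem _ _ (Submodule.subset_span ⟨c.1, rfl⟩)
    simp only [h1, zero_smul, Finset.sum_const_zero, zero_add] at hw
    have h2 := Fintype.linearIndependent_iff.mp hindC (fun c => w (Sum.inr c)) hw
    intro c
    rcases c with c | c
    · exact h1 c
    · exact h2 c
  · have h1 := hsol
    rw [← hspanC, Submodule.mem_span_range_iff_exists_fun] at h1
    obtain ⟨w, hw⟩ := h1
    refine ⟨w, ?_⟩
    rw [hw]
    ring

end Pool.Agent.Y86.QE
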