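import Pool.Agent.Y86.QE.Core
import Pool.Agent.H503R3.QCI.Family

/-! # The sharper count for quadratic complete intersections -/

set_option autoImplicit false

namespace Pool.Agent.Y86.QE

open MvPolynomial H503R3.QCI

universe u

/-- the product of the two variables of a pair -/
noncomputable def sm {R : Type*} [CommSemiring R] {N : ℕ} (s : Sym2 (Fin N)) :
    MvPolynomial (Fin N) R :=
  Sym2.lift ⟨fun i j => X i * X j, fun _ _ => mul_comm _ _⟩ s

variable {F : Type u} [Field F]

/-- parameters: the coefficients of `N` quadrics and of `n` linear forms in `N` variables -/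
abbrev Pq (n N : ℕ) : Type := (Fin N × Sym2 (Fin N)) ⊕ (Fin n × Fin N)

/-- generic quadrics -/
noncomputable def qG (F : Type u) [Field F] (n N : ℕ) (k : Fin N) :
    MvPolynomial (Fin N) (MvPolynomial (Pq n N) F) :=
  ∑ s, C (X (Sum.inl (k, s))) * sm s

/-- generic linear forms -/
noncomputable def qL (F : Type u) [Field F] (n N : ℕ) (i : Fin n) :
    MvPolynomial (Fin N) (MvPolynomial (Pq n N) F) :=
  ∑ j, C (X (Sum.inr (i, j))) * X j

lemma map_sm {N : ℕ} {ι : Type} (p : ι → F) (s : Sym2 (Fin N)) :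
    map (eval p) (sm s : MvPolynomial (Fin N) (MvPolynomial ι F)) = sm s := by
  induction s using Sym2.ind with
  | _ i j => simp [sm]

lemma quadric_span {N : ℕ} {p : MvPolynomial (Fin N) F} (hp : p.IsHomogeneous 2) :
    p ∈ Submodule.span F (Set.range fun s : Sym2 (Fin N) => (sm s : MvPolynomial (Fin N) F)) := by
  obtain ⟨c, rfl⟩ := quadratic_form p hp
  refine sum_mem fun i _ => sum_mem fun j _ => ?_
  rw [← smul_eq_C_mul]
  exact Submodule.smul_mem _ _ (Submodule.subset_span ⟨s(i, j), rfl⟩)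

lemma exists_pq {n N : ℕ} (q : Fin N → MvPolynomial (Fin N) F)
    (hq : ∀ k, (q k).IsHomogeneous 2)
    (bb : Fin n → MvPolynomial (Fin N) F) (hb : ∀ i, (bb i).IsHomogeneous 1) :
    ∃ p : Pq n N → F, (∀ k, map (eval p) (qG F n N k) = q k) ∧
      ∀ i, map (eval p) (qL F n N i) = bb i := by
  choose c hc using fun k =>
    (Submodule.mem_span_range_iff_exists_fun F).mp (quadric_span (hq k))
  choose c' hc' using fun i => linear_form (bb i) (hb i)
  refine ⟨Sum.elim (fun t => c t.1 t.2) (fun t => c' t.1 t.2), ?_, ?_⟩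
  · intro k
    conv_rhs => rw [← hc k]
    simp only [qG, map_sum, map_mul, map_C, eval_X, map_sm, Sum.elim_inl, smul_eq_C_mul]
  · intro i
    conv_rhs => rw [hc' i]
    simp only [qL, map_sum, map_mul, map_C, eval_X, map_X, Sum.elim_inr]

/-- the columns of the squarefree monomials -/
noncomputable def V₁ (F : Type u) [Field F] (a e N : ℕ) (T : Sq a e) :
    MvPolynomial (Fin N) (MvPolynomial (Pq (a + 1) N) F) :=
  ∏ t ∈ T.1, qL F (a + 1) N (Fin.castAdd 1 t)

/-- the columns of the multiples of the quadrics -/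
noncomputable def V₂ (F : Type u) [Field F] (a e N : ℕ) (c : Fin N × (Fin (e - 2) → Fin N)) :
    MvPolynomial (Fin N) (MvPolynomial (Pq (a + 1) N) F) :=
  wo c.2 * qG F (a + 1) N c.1

/-- `g` is generic, for quadratic targets -/
def GenQ (N : ℕ) {a e : ℕ} (g : Sq a e → F) : Prop :=
  GoodP (V₁ F a e N) (V₂ F a e N) (qL F (a + 1) N (Fin.natAdd a 0) ^ e) g

lemma card_pq (n N : ℕ) : Fintype.card (Pq n N) = N * (N + 1).choose 2 + n * N := by
  rw [Fintype.card_sum, Fintype.card_prod, Fintype.card_prod, Sym2.card, Fintype.card_fin,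
    Fintype.card_fin]

lemma quad_mem {N e : ℕ} (he : 2 ≤ e) {q : Fin N → MvPolynomial (Fin N) F}
    (hq : ∀ k, (q k).IsHomogeneous 2) {h : MvPolynomial (Fin N) F} (hh : h.IsHomogeneous e)
    (hJ : h ∈ Ideal.span (Set.range q)) :
    h ∈ Submodule.span F (Set.range fun c : Fin N × (Fin (e - 2) → Fin N) =>
      (wo c.2 * q c.1 : MvPolynomial (Fin N) F)) := by
  set V := Submodule.span F (Set.range fun c : Fin N × (Fin (e - 2) → Fin N) =>
      (wo c.2 * q c.1 : MvPolynomial (Fin N) F)) with hV
  obtain ⟨c, hc⟩ := Ideal.mem_span_range_iff_exists_fun.mp hJ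
  have h1 : h = ∑ k, q k * homogeneousComponent (e - 2) (c k) := by
    have h2 := homogeneousComponent_eq_self hh
    rw [← hc, map_sum] at h2
    conv_lhs => rw [← hc, ← h2]
    refine Finset.sum_congr rfl fun k _ => ?_
    have h3 : e = 2 + (e - 2) := by omega
    conv_lhs => rw [mul_comm, h3]
    rw [comp_mul (hq k)]
  rw [h1]
  refine sum_mem fun k _ => ?_
  have h2 : Submodule.span F (Set.range fun w : Fin (e - 2) → Fin N =>
      (wo w : MvPolynomial (Fin N) F)) ≤ V.comap (LinearMap.mulRight F (q k)) := by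
    rw [Submodule.span_le]
    rintro _ ⟨w, rfl⟩
    exact Submodule.subset_span ⟨(k, w), rfl⟩
  have h3 := h2 (word_span (homogeneousComponent_isHomogeneous (e - 2) (c k)))
  rw [mul_comm]
  exact h3

/-- **The dimension count for quadrics.** -/
theorem core_quad {a e N : ℕ} (he : 2 ≤ e) {g : Sq a e → F} (hg : GenQ N g)
    (q : Fin N → MvPolynomial (Fin N) F) (hq : ∀ k, (q k).IsHomogeneous 2)
    (bb : Fin (a + 1) → MvPolynomial (Fin N) F) (hb : ∀ i, (bb i).IsHomogeneous 1)
    (h1 : ∀ (p : MvPolynomial (Fin (a + 1)) F) (k : ℕ), p.IsHomogeneous k →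
        p ∈ Ideal.span (Set.range (fa g)) → aeval bb p ∈ Ideal.span (Set.range q))
    (h2 : ∀ p : MvPolynomial (Fin (a + 1)) F, p.IsHomogeneous (a + (e - 1)) →
        p ∉ Ideal.span (Set.range (fa g)) → aeval bb p ∉ Ideal.span (Set.range q)) : False := by
  classical
  obtain ⟨p, hp1, hp2⟩ := exists_pq q hq bb hb
  have hmon : ∀ T : Sq a e, map (eval p) (V₁ F a e N T) = aeval bb (mo (F := F) a T.1) := by
    intro T
    rw [V₁, map_prod, mo, map_prod]
    refine Finset.prod_congr rfl fun t _ => ?_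
    rw [hp2, aeval_X]
  have hcol : (fun c : Fin N × (Fin (e - 2) → Fin N) => map (eval p) (V₂ F a e N c)) =
      fun c => (wo c.2 * q c.1 : MvPolynomial (Fin N) F) := by
    funext c
    rw [V₂, map_mul, hp1]
    congr 1
    simp [wo]
  have hw := hg p
  rw [hcol] at hw
  refine hw ?_ ?_
  · intro w hw
    apply sq_inj g (by omega) h1 h2
    have h3 : Submodule.span F (Set.range fun c : Fin N × (Fin (e - 2) → Fin N) =>
        (wo c.2 * q c.1 : MvPolynomial (Fin N) F)) ≤
        (Ideal.span (Set.range q)).restrictScalars F := by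
      rw [Submodule.span_le]
      rintro _ ⟨c, rfl⟩
      exact Ideal.mul_mem_left _ _ (Ideal.subset_span ⟨c.1, rfl⟩)
    have h4 := h3 hw
    simp only [hmon] at h4
    rw [map_sum]
    simp only [map_smul]
    exact h4
  · have h3 : map (eval p) (qL F (a + 1) N (Fin.natAdd a 0) ^ e) -
        ∑ T : Sq a e, g T • map (eval p) (V₁ F a e N T) =
        aeval bb (fa g (Fin.natAdd a 0)) := by
      simp only [hmon]
      rw [fa_last, map_pow, hp2, map_sub, map_pow, aeval_X, map_sum]
      simp only [map_smul]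
    rw [h3]
    have h5 : (fa g (Fin.natAdd a 0)).IsHomogeneous e := by
      have := fa_homog g (Fin.natAdd a 0)
      simpa [fdg] using this
    apply quad_mem he hq
    · have := h5.aeval (g := bb) (n := 1) hb
      rwa [one_mul] at this
    · exact h1 _ _ h5 (Ideal.subset_span ⟨_, rfl⟩)

/-- no maps into quadratic complete intersections of the same socle degree -/
theorem no_quad {a e d : ℕ} (he : 2 ≤ e) (had : a + e = d + 1) {g : Sq a e → F}
    (hg : GenQ d g) (q : Fin d → MvPolynomial (Fin d) F) (hq : ∀ k, (q k).IsHomogeneous 2)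
    (hsoc : IsSocleDegree (Ideal.span (Set.range q)) d)
    (φ : (MvPolynomial (Fin (a + 1)) F ⧸ Ideal.span (Set.range (fa g))) →ₐ[F]
      (MvPolynomial (Fin d) F ⧸ Ideal.span (Set.range q))) : ¬ Function.Injective φ := by
  intro hφ
  have hd : a + (e - 1) = d := by omega
  have hfa : IsSocleDegree (Ideal.span (Set.range (fa g))) d := by
    have h := fa_socle g (show 1 ≤ e by omega)
    rwa [hd] at h
  obtain ⟨bb, hb1, hb2, hb3⟩ := graded_reduction
    (homog_span (by rintro _ ⟨k, rfl⟩; exact ⟨2, hq k⟩)) hfa hsoc φ hφ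
  refine core_quad he hg q hq bb hb1 hb2 ?_
  rw [hd]
  exact hb3

lemma sextic {m : ℕ} (hm : 15 ≤ m) :
    (m + 5) * (m + 5 + 1).choose 2 + (m + 1) * (m + 5) < m.choose 6 := by
  obtain ⟨t, rfl⟩ := Nat.exists_eq_add_of_le hm
  have h1 : 720 * (15 + t).choose 6 =
      (15 + t) * (14 + t) * (13 + t) * (12 + t) * (11 + t) * (10 + t) := by
    have h := Nat.descFactorial_eq_factorial_mul_choose (15 + t) 6
    simp only [Nat.descFactorial, Nat.factorial] at h
    rw [show 15 + t - 0 = 15 + t by omega, show 15 + t - 1 = 14 + t by omega,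
      show 15 + t - 2 = 13 + t by omega, show 15 + t - 3 = 12 + t by omega,
      show 15 + t - 4 = 11 + t by omega, show 15 + t - 5 = 10 + t by omega] at h
    linarith
  have h2 : 2 * (15 + t + 5 + 1).choose 2 = (21 + t) * (20 + t) := by
    have h := Nat.descFactorial_eq_factorial_mul_choose (15 + t + 5 + 1) 2
    simp only [Nat.descFactorial, Nat.factorial] at h
    rw [show 15 + t + 5 + 1 - 0 = 21 + t by omega,
      show 15 + t + 5 + 1 - 1 = 20 + t by omega] at h
    linarith
  have h3 : 720 * ((15 + t + 5) * (15 + t + 5 + 1).choose 2 + (15 + t + 1) * (15 + t + 5)) =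
      360 * ((20 + t) * ((21 + t) * (20 + t))) + 720 * ((16 + t) * (20 + t)) := by
    rw [← h2]
    ring
  have h4 : 360 * ((20 + t) * ((21 + t) * (20 + t))) + 720 * ((16 + t) * (20 + t)) <
      (15 + t) * (14 + t) * (13 + t) * (12 + t) * (11 + t) * (10 + t) := by
    ring_nf
    omega
  rw [← h3, ← h1] at h4
  omega

end Pool.Agent.Y86.QE
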