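import Pool.Agent.Y86.QE.Emb
import Pool.Agent.Y86.QE.Quad

/-! # Definitions for the two hand-ins, and the final lemmas -/

set_option autoImplicit false

namespace Pool.Agent.Y86.QE

open MvPolynomial

universe u

/-- `F[x_1,…,x_n]/(f_1,…,f_n)` is a standard graded Artinian complete intersection: the `f_i`
are homogeneous and form a regular sequence. -/
structure IsGradedCI {F : Type u} [Field F] {n : ℕ} (f : Fin n → MvPolynomial (Fin n) F) :
    Prop where
  homogeneous : ∀ i, ∃ e : ℕ, (f i).IsHomogeneous e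
  regular : RingTheory.Sequence.IsRegular (MvPolynomial (Fin n) F) (List.ofFn f)

/-- The algebra `F[x_1,…,x_n]/(f_1,…,f_n)`. -/
abbrev Alg {F : Type u} [Field F] {n : ℕ} (f : Fin n → MvPolynomial (Fin n) F) : Type u :=
  MvPolynomial (Fin n) F ⧸ Ideal.span (Set.range f)

/-- The socle degree of `F[x_1,…,x_n]/I` (with `I` homogeneous) is `d`: this is the largest degree
of a homogeneous polynomial not in `I`. -/
def HasSocleDegree {F : Type u} [Field F] {n : ℕ} (I : Ideal (MvPolynomial (Fin n) F))
    (d : ℕ) : Prop :=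
  (∃ h : MvPolynomial (Fin n) F, h.IsHomogeneous d ∧ h ∉ I) ∧
    ∀ j, d < j → ∀ h : MvPolynomial (Fin n) F, h.IsHomogeneous j → h ∈ I

/-- `F[x_1,…,x_n]/(f_1,…,f_n)` has no injective algebra map into a complete intersection of socle
degree `d` which is cut out by quadrics. -/
def NoQuadraticTarget {F : Type u} [Field F] {n : ℕ} (f : Fin n → MvPolynomial (Fin n) F)
    (d : ℕ) : Prop :=
  ∀ (N : ℕ) (q : Fin N → MvPolynomial (Fin N) F), IsGradedCI q →
    (∀ i, (q i).IsHomogeneous 2) → HasSocleDegree (Ideal.span (Set.range q)) d →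
    ∀ φ : Alg f →ₐ[F] Alg q, ¬ Function.Injective φ

/-- `F[x_1,…,x_n]/(f_1,…,f_n)` has
1. for `d ^ (4 D) ≤ 2 ^ d`, no injective algebra map into a complete intersection of socle degree
   `d` cut out by forms of degrees `2, …, D`;
2. for `max N 2 ^ (4 D) ≤ 2 ^ d` and `J` an ideal of `F[X_1,…,X_N]` generated by (any number of)
   forms of degree at most `D`, no injective algebra map `φ` into `F[X_1,…,X_N]/J`, if this
   quotient has socle degree `d`, or if each `φ x_i` is the class of a polynomial (homogeneous or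
   not) of degree at most `D`. -/
def NoLowDegreeTarget {F : Type u} [Field F] {n : ℕ} (f : Fin n → MvPolynomial (Fin n) F)
    (d : ℕ) : Prop :=
  (∀ (D N : ℕ) (q : Fin N → MvPolynomial (Fin N) F), d ^ (4 * D) ≤ 2 ^ d → IsGradedCI q →
    (∀ i, ∃ k, 2 ≤ k ∧ k ≤ D ∧ (q i).IsHomogeneous k) →
    HasSocleDegree (Ideal.span (Set.range q)) d →
    ∀ φ : Alg f →ₐ[F] Alg q, ¬ Function.Injective φ) ∧
  ∀ (D N : ℕ) (S : Set (MvPolynomial (Fin N) F)), 1 ≤ D → max N 2 ^ (4 * D) ≤ 2 ^ d →
    (∀ s ∈ S, ∃ k ≤ D, s.IsHomogeneous k) →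
    ∀ φ : Alg f →ₐ[F] (MvPolynomial (Fin N) F ⧸ Ideal.span S),
      (HasSocleDegree (Ideal.span S) d ∨
        ∀ i, ∃ b : MvPolynomial (Fin N) F, b.totalDegree ≤ D ∧
          φ (Ideal.Quotient.mk _ (X i)) = Ideal.Quotient.mk _ b) →
      ¬ Function.Injective φ

/-- The forms `x_1², …, x_a², y^e - g(x_1,…,x_a)` in `F[x_1,…,x_a,y]`, where `g` is the squarefree
form of degree `e` with coefficients `g T`. -/
noncomputable def family {F : Type u} [Field F] {a e : ℕ}
    (g : {T : Finset (Fin a) // T.card = e} → F) : Fin (a + 1) → MvPolynomial (Fin (a + 1)) F :=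
  Fin.snoc (α := fun _ => MvPolynomial (Fin (a + 1)) F) (fun i => X i.castSucc ^ 2)
    (X (Fin.last a) ^ e - ∑ T, C (g T) * ∏ t ∈ T.1, X t.castSucc)

/-- `P` holds for generic coefficient vectors: off a hypersurface if `F` is infinite, and for all
but at most the fraction `1 / |F|` of the vectors if `F` is finite. -/
def Generically {F : Type u} [Field F] {c : Type} (P : (c → F) → Prop) : Prop :=
  (Infinite F → ∃ H : MvPolynomial c F, H ≠ 0 ∧ ∀ g : c → F, eval g H ≠ 0 → P g) ∧
    (Finite F → Nat.card F * Nat.card {g : c → F // ¬ P g} ≤ Nat.card (c → F))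

open H503R3.QCI

lemma family_eq {F : Type u} [Field F] {a e : ℕ} (g : Sq a e → F) : family g = fa g := by
  funext i
  refine Fin.lastCases ?_ (fun i => ?_) i
  · rw [family, Fin.snoc_last]
    have h := fa_last g
    have h1 : (Fin.natAdd a 0 : Fin (a + 1)) = Fin.last a := rfl
    rw [h1] at h
    rw [h]
    congr 1
    refine Finset.sum_congr rfl fun T _ => ?_
    rw [mo, smul_eq_C_mul]
    rfl
  · rw [family, Fin.snoc_castSucc]
    have h1 : i.castSucc = Fin.castAdd 1 i := rfl
    rw [h1, fa, lot, fdg, Fin.addCases_left, Fin.addCases_left, sub_zero]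

lemma finite_of_socle {F : Type u} [Field F] {n : ℕ} {I : Ideal (MvPolynomial (Fin n) F)}
    {d : ℕ} (h : HasSocleDegree I d) : Module.Finite F (MvPolynomial (Fin n) F ⧸ I) := by
  let W : Submodule F (MvPolynomial (Fin n) F) :=
    ⨆ j : Fin (d + 1), homogeneousSubmodule (Fin n) F j.1
  have hW : Module.Finite F W := by
    have : ∀ j : Fin (d + 1), Module.Finite F (homogeneousSubmodule (Fin n) F j.1) :=
      fun j => inferInstance
    exact Submodule.finite_iSup _
  let T : W →ₗ[F] MvPolynomial (Fin n) F ⧸ I := (Ideal.Quotient.mkₐ F I).toLinearMap ∘ₗ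
    W.subtype
  refine Module.Finite.of_surjective T ?_
  intro y
  obtain ⟨x, rfl⟩ := Ideal.Quotient.mk_surjective y
  refine ⟨⟨∑ j : Fin (d + 1), homogeneousComponent j.1 x, ?_⟩, ?_⟩
  · refine sum_mem fun j _ => ?_
    exact Submodule.mem_iSup_of_mem j (homogeneousComponent_isHomogeneous _ _)
  · change Ideal.Quotient.mk I (∑ j : Fin (d + 1), homogeneousComponent j.1 x) = _
    rw [Ideal.Quotient.eq]
    have h1 : x = ∑ j ∈ Finset.range (x.totalDegree + 1 + (d + 1)), homogeneousComponent j x := by
      conv_lhs => rw [← sum_homogeneousComponent x]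
      refine Finset.sum_subset ?_ ?_
      · intro i hi
        rw [Finset.mem_range] at hi ⊢
        omega
      · intro i _ hi
        exact homogeneousComponent_eq_zero i x (by simpa using hi)
    have h2 : ∑ j ∈ Finset.range (x.totalDegree + 1 + (d + 1)), homogeneousComponent j x =
        ∑ j ∈ Finset.range (d + 1), homogeneousComponent j x +
        ∑ j ∈ Finset.range (x.totalDegree + 1), homogeneousComponent (d + 1 + j) x := by
      rw [add_comm (x.totalDegree + 1) (d + 1), Finset.sum_range_add]
    have h2' := Finset.sum_range (n := d + 1) (fun j => homogeneousComponent j x)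
    have h3 : ∑ j : Fin (d + 1), homogeneousComponent j.1 x - x =
        - ∑ j ∈ Finset.range (x.totalDegree + 1), homogeneousComponent (d + 1 + j) x := by
      have h4 := h1.trans h2
      rw [h2'] at h4
      linear_combination -h4
    rw [h3]
    refine neg_mem (sum_mem fun j _ => ?_)
    exact h.2 (d + 1 + j) (by omega) _ (homogeneousComponent_isHomogeneous _ _)

lemma socle_family {F : Type u} [Field F] {a e d : ℕ} (he : 1 ≤ e) (had : a + e = d + 1)
    (g : Sq a e → F) : HasSocleDegree (Ideal.span (Set.range (family g))) d := by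
  have h := fa_socle g he
  rw [show a + (e - 1) = d by omega] at h
  rw [family_eq]
  exact h

lemma ofList_ofFn {R : Type*} [CommRing R] {n : ℕ} (f : Fin n → R) :
    Ideal.ofList (List.ofFn f) = Ideal.span (Set.range f) := by
  rw [Ideal.ofList]
  congr 1
  ext x
  simp [List.mem_ofFn]

lemma isGradedCI_family {F : Type u} [Field F] {a e : ℕ} (he : 1 ≤ e) (g : Sq a e → F) :
    IsGradedCI (family g) := by
  rw [family_eq]
  refine ⟨fun i => ⟨_, fa_homog g i⟩, isWeaklyRegular_of_reg (fa_reg g he), ?_⟩
  intro htop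
  rw [smul_eq_mul, Ideal.mul_top] at htop
  apply fa_socle_notMem g he
  rw [← ofList_ofFn, ← htop]
  exact Submodule.mem_top

lemma Generically.mono {F : Type u} [Field F] {c : Type} [Fintype c] {P Q : (c → F) → Prop}
    (hP : Generically P) (h : ∀ g, P g → Q g) : Generically Q := by
  refine ⟨fun hF => ?_, fun hF => ?_⟩
  · obtain ⟨H, h0, hH⟩ := hP.1 hF
    exact ⟨H, h0, fun g hg => h g (hH g hg)⟩
  · refine le_trans (Nat.mul_le_mul_left _ ?_) (hP.2 hF)
    exact Nat.card_le_card_of_injective
      (fun g : {g : c → F // ¬ Q g} => (⟨g.1, fun hg => g.2 (h _ hg)⟩ : {g : c → F // ¬ P g}))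
      (fun g g' hgg => Subtype.ext (congrArg (fun x => x.1) hgg))

lemma Generically.exists {F : Type u} [Field F] {c : Type} [Fintype c] {P : (c → F) → Prop}
    (hP : Generically P) : ∃ g, P g := by
  rcases finite_or_infinite F with hF | hF
  · by_contra hcon
    push Not at hcon
    have h1 := hP.2 hF
    have h2 : Nat.card {g : c → F // ¬ P g} = Nat.card (c → F) :=
      Nat.card_congr (Equiv.subtypeUnivEquiv hcon)
    rw [h2] at h1
    have h3 : 1 < Nat.card F := Finite.one_lt_card
    have h4 : 0 < Nat.card (c → F) := Nat.card_pos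
    nlinarith
  · obtain ⟨H, h0, hH⟩ := hP.1 hF
    obtain ⟨g, hg⟩ : ∃ g, eval g H ≠ 0 := by
      by_contra hcon
      push Not at hcon
      exact h0 (MvPolynomial.funext fun g => by rw [hcon g, map_zero])
    exact ⟨g, hH g hg⟩

lemma generically_good {F : Type u} [Field F] {ι κ c₁ c₂ : Type} [Fintype ι] [Fintype c₁]
    [Fintype c₂]
    (Q₁ : c₁ → MvPolynomial κ (MvPolynomial ι F)) (Q₂ : c₂ → MvPolynomial κ (MvPolynomial ι F))
    (b : MvPolynomial κ (MvPolynomial ι F))
    (hcard : Fintype.card ι < Fintype.card c₁) : Generically (GoodP Q₁ Q₂ b) := by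
  refine ⟨fun hF => good_inf Q₁ Q₂ b hcard, fun hF => ?_⟩
  have h1 := good_fin Q₁ Q₂ b
  rw [Nat.card_fun, Nat.card_eq_fintype_card (α := c₁)]
  have h3 : 0 < Nat.card F := Nat.card_pos
  calc Nat.card F * Nat.card {g : c₁ → F // ¬ GoodP Q₁ Q₂ b g}
      ≤ Nat.card F * Nat.card F ^ Fintype.card ι := Nat.mul_le_mul_left _ h1
    _ = Nat.card F ^ (Fintype.card ι + 1) := by rw [pow_succ, mul_comm]
    _ ≤ Nat.card F ^ Fintype.card c₁ := Nat.pow_le_pow_right h3 hcard

lemma generic_quadratic {F : Type u} [Field F] {a e d : ℕ} (he : 2 ≤ e) (had : a + e = d + 1)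
    (hcard : d * (d + 1).choose 2 + (a + 1) * d < a.choose e) :
    Generically (fun g : {T : Finset (Fin a) // T.card = e} → F =>
      NoQuadraticTarget (family g) d) := by
  have h1 : Generically (F := F) (GenQ (F := F) (a := a) (e := e) d) := by
    apply generically_good
    rw [card_pq, Fintype.card_finset_len, Fintype.card_fin]
    exact hcard
  refine h1.mono fun g hg => ?_
  intro N q hq hq2 hqd
  have hreg := reg_of_isWeaklyRegular hq.regular.toIsWeaklyRegular
  have hs : IsSocleDegree (Ideal.span (Set.range q)) (∑ _i : Fin N, (2 - 1)) :=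
    isSocleDegree_ci q (fun _ => 2) hq2 (fun _ => by norm_num) hreg
  have hNd : ∑ _i : Fin N, (2 - 1) = d := hs.unique hqd
  have hNd' : N = d := by
    rw [← hNd]; simp
  subst hNd'
  rw [family_eq]
  exact no_quad he had hg q hq2 hqd

lemma generic_low {F : Type u} [Field F] {a e d : ℕ} (hd : 60 ≤ d) (he : e = (d + 1) / 3)
    (had : a + e = d + 1) :
    Generically (fun g : {T : Finset (Fin a) // T.card = e} → F =>
      NoLowDegreeTarget (family g) d) := by
  have h1 : Generically (F := F) (Gen1 (F := F) (a := a) (e := e) (d / 4) (nu d)) := by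
    apply generically_good
    exact params hd he had
  have he1 : 1 ≤ e := by omega
  refine h1.mono fun g hg => ⟨?_, ?_⟩
  · intro D N q hD hq hqk hqd
    have hreg := reg_of_isWeaklyRegular hq.regular.toIsWeaklyRegular
    choose k hk2 hkD hk using hqk
    have hN : N ≤ d := ci_vars hreg hk hk2 hqd
    have h2 : max N 2 ^ (4 * max D 2) ≤ 2 ^ d := by
      refine (Nat.pow_le_pow_left (max_le hN (by omega)) _).trans ?_
      rcases le_total D 2 with h | h
      · rw [max_eq_right h]
        exact pow8 hd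
      · rwa [max_eq_left h]
    rw [family_eq]
    refine no_socle he1 had hg (D := max D 2) (by omega) h2 ?_ hqd
    rintro _ ⟨i, rfl⟩
    exact ⟨k i, (hkD i).trans (le_max_left _ _), hk i⟩
  · intro D N S hD hN hS
    rw [family_eq]
    rintro φ (h | h)
    · exact no_socle he1 had hg hD hN hS h φ
    · exact no_bounded he1 hg hD hN hS φ h

lemma family_homog {F : Type u} [Field F] {a e : ℕ} (g : Sq a e → F) :
    (∀ i : Fin a, (family g i.castSucc).IsHomogeneous 2) ∧
      (family g (Fin.last a)).IsHomogeneous e := by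
  rw [family_eq]
  refine ⟨fun i => fa_init g i, ?_⟩
  have h1 := fa_homog g (Fin.natAdd a 0)
  have h2 : (fa g (Fin.natAdd a 0)).IsHomogeneous e := by simpa [fdg] using h1
  exact h2

end Pool.Agent.Y86.QE
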