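import Pool.Agent.Y86.QE.Num

/-! # No embeddings for a generic member of the family -/

set_option autoImplicit false

namespace Pool.Agent.Y86.QE

open MvPolynomial H503R3.QCI

universe u

variable {F : Type u} [Field F]

lemma four_mul_le {d D N : ℕ} (h : max N 2 ^ (4 * D) ≤ 2 ^ d) : 4 * D ≤ d := by
  have h1 : 2 ^ (4 * D) ≤ 2 ^ d := (Nat.pow_le_pow_left (le_max_right N 2) _).trans h
  exact (Nat.pow_le_pow_iff_right (by norm_num)).mp h1

section

variable {a e d D N : ℕ}

/-- no maps into algebras of the same socle degree -/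
theorem no_socle (he : 1 ≤ e) (had : a + e = d + 1) {g : Sq a e → F}
    (hg : Gen1 (d / 4) (nu d) g) (hD : 1 ≤ D) (hN : max N 2 ^ (4 * D) ≤ 2 ^ d)
    {S : Set (MvPolynomial (Fin N) F)} (hS : ∀ s ∈ S, ∃ k ≤ D, s.IsHomogeneous k)
    (hsoc : IsSocleDegree (Ideal.span S) d)
    (φ : (MvPolynomial (Fin (a + 1)) F ⧸ Ideal.span (Set.range (fa g))) →ₐ[F]
      (MvPolynomial (Fin N) F ⧸ Ideal.span S)) : ¬ Function.Injective φ := by
  intro hφ
  have hd : a + (e - 1) = d := by omega
  have hfa : IsSocleDegree (Ideal.span (Set.range (fa g))) d := by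
    rw [← hd]
    exact fa_socle g he
  have hhom : Homog (Ideal.span S) := homog_span (fun s hs => by
    obtain ⟨k, _, hk⟩ := hS s hs
    exact ⟨k, hk⟩)
  obtain ⟨bb, hb1, hb2, hb3⟩ := graded_reduction hhom hfa hsoc φ hφ
  have h4 := four_mul_le hN
  refine core (d / 4) (nu d) he hg N D (by omega) (fun j hj => le_nu hD hN hj) (Ideal.span S) S
    hS rfl bb (fun i => (hb1 i).totalDegree_le.trans hD) hb2 ?_
  rw [hd]
  exact hb3

/-- no maps of bounded degree -/
theorem no_bounded (he : 1 ≤ e) {g : Sq a e → F}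
    (hg : Gen1 (d / 4) (nu d) g) (hD : 1 ≤ D) (hN : max N 2 ^ (4 * D) ≤ 2 ^ d)
    {S : Set (MvPolynomial (Fin N) F)} (hS : ∀ s ∈ S, ∃ k ≤ D, s.IsHomogeneous k)
    (φ : (MvPolynomial (Fin (a + 1)) F ⧸ Ideal.span (Set.range (fa g))) →ₐ[F]
      (MvPolynomial (Fin N) F ⧸ Ideal.span S))
    (hφ : ∀ i, ∃ b : MvPolynomial (Fin N) F, b.totalDegree ≤ D ∧
      φ (Ideal.Quotient.mk _ (X i)) = Ideal.Quotient.mk _ b) : ¬ Function.Injective φ := by
  intro hinj
  choose b hb1 hb using hφ
  have key : ∀ p : MvPolynomial (Fin (a + 1)) F,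
      Ideal.Quotient.mk (Ideal.span S) (aeval b p) = φ (Ideal.Quotient.mk _ p) := by
    intro p
    have : ((Ideal.Quotient.mkₐ F (Ideal.span S)).comp (aeval b)) =
        φ.comp (Ideal.Quotient.mkₐ F (Ideal.span (Set.range (fa g)))) := by
      apply MvPolynomial.algHom_ext
      intro i
      simp only [AlgHom.comp_apply, aeval_X, Ideal.Quotient.mkₐ_eq_mk]
      exact (hb i).symm
    exact DFunLike.congr_fun this p
  have hmem : ∀ p : MvPolynomial (Fin (a + 1)) F,
      p ∈ Ideal.span (Set.range (fa g)) ↔ aeval b p ∈ Ideal.span S := by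
    intro p
    rw [← Ideal.Quotient.eq_zero_iff_mem, ← Ideal.Quotient.eq_zero_iff_mem, key]
    constructor
    · intro h; rw [h, map_zero]
    · intro h; exact hinj (by rw [h, map_zero])
  have h4 := four_mul_le hN
  exact core (d / 4) (nu d) he hg N D (by omega) (fun j hj => le_nu hD hN hj) (Ideal.span S) S
    hS rfl b hb1 (fun p _ _ hp => (hmem p).mp hp) (fun p _ hp hc => hp ((hmem p).mpr hc))

end

/-- a complete intersection of socle degree `d` with relations of degree at least two has at most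
`d` variables -/
lemma ci_vars {N d : ℕ} {q : Fin N → MvPolynomial (Fin N) F} (hq : Reg q) {k : Fin N → ℕ}
    (hk : ∀ i, (q i).IsHomogeneous (k i)) (hk2 : ∀ i, 2 ≤ k i)
    (hsoc : IsSocleDegree (Ideal.span (Set.range q)) d) : N ≤ d := by
  have hs := isSocleDegree_ci q k hk (fun i => (hk2 i).trans' (by norm_num)) hq
  have h1 := hs.unique hsoc
  have h2 : ∑ _i : Fin N, 1 ≤ ∑ i, (k i - 1) :=
    Finset.sum_le_sum fun i _ => by have := hk2 i; omega
  simp only [Finset.sum_const, Finset.card_univ, Fintype.card_fin, smul_eq_mul, mul_one] at h2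
  omega

end Pool.Agent.Y86.QE
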