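import Pool.Agent.Y86.QE.Core

/-! # The numbers -/

set_option autoImplicit false

namespace Pool.Agent.Y86.QE

/-- the largest `N` with `max N 2 ^ (4 * max j 1) ≤ 2 ^ d` -/
def nu (d j : ℕ) : ℕ := Nat.findGreatest (fun M => max M 2 ^ (4 * max j 1) ≤ 2 ^ d) (2 ^ d)

lemma le_nu {d D N j : ℕ} (hD : 1 ≤ D) (h : max N 2 ^ (4 * D) ≤ 2 ^ d) (hj : j ≤ D) :
    N ≤ nu d j := by
  apply Nat.le_findGreatest
  · calc N ≤ max N 2 := le_max_left _ _
      _ ≤ max N 2 ^ (4 * D) := Nat.le_self_pow (by omega) _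
      _ ≤ 2 ^ d := h
  · exact (Nat.pow_le_pow_right (by omega) (by omega)).trans h

lemma nu_pow {d j : ℕ} (hj : 4 * j ≤ d) (hd : 4 ≤ d) : nu d j ^ (4 * j) ≤ 2 ^ d := by
  have h : max (nu d j) 2 ^ (4 * max j 1) ≤ 2 ^ d :=
    Nat.findGreatest_spec (P := fun M => max M 2 ^ (4 * max j 1) ≤ 2 ^ d) (m := 0)
      (Nat.zero_le _) (by
        change max 0 2 ^ (4 * max j 1) ≤ 2 ^ d
        exact Nat.pow_le_pow_right (by norm_num) (by omega))
  calc nu d j ^ (4 * j) ≤ max (nu d j) 2 ^ (4 * j) := Nat.pow_le_pow_left (le_max_left _ _) _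
    _ ≤ max (nu d j) 2 ^ (4 * max j 1) := Nat.pow_le_pow_right (by omega) (by omega)
    _ ≤ _ := h

lemma card_le {d n : ℕ} (hd : 4 ≤ d) (hn : n ^ 4 ≤ 2 ^ d) :
    Fintype.card (Pr (d / 4) (nu d) n) ≤ 2 * (d / 4 + 1) * Nat.sqrt (2 ^ d) := by
  set S := Nat.sqrt (2 ^ d) with hS
  have h1 : ∀ j : Fin (d / 4 + 1), (nu d j ^ (j : ℕ)) ^ 4 ≤ 2 ^ d := by
    intro j
    rw [← pow_mul, mul_comm]
    exact nu_pow (by have := j.2; omega) hd
  have h2 : ∀ j : Fin (d / 4 + 1), nu d j ^ (j : ℕ) * nu d j ^ (j : ℕ) ≤ S := by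
    intro j
    rw [hS, Nat.le_sqrt]
    refine le_trans (le_of_eq ?_) (h1 j)
    ring
  have h3 : ∀ j : Fin (d / 4 + 1), n * nu d j ^ (j : ℕ) ≤ S := by
    intro j
    rw [hS, Nat.le_sqrt]
    have h4 : ((n * nu d j ^ (j : ℕ)) * (n * nu d j ^ (j : ℕ))) ^ 2 ≤ (2 ^ d) ^ 2 := by
      calc ((n * nu d j ^ (j : ℕ)) * (n * nu d j ^ (j : ℕ))) ^ 2
          = n ^ 4 * (nu d j ^ (j : ℕ)) ^ 4 := by ring
        _ ≤ 2 ^ d * 2 ^ d := Nat.mul_le_mul hn (h1 j)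
        _ = (2 ^ d) ^ 2 := by ring
    exact (Nat.pow_le_pow_iff_left (by norm_num)).mp h4
  have h5 : Fintype.card (Pr (d / 4) (nu d) n) =
      ∑ j : Fin (d / 4 + 1), nu d j ^ (j : ℕ) * nu d j ^ (j : ℕ) +
        ∑ j : Fin (d / 4 + 1), n * nu d j ^ (j : ℕ) := by
    rw [Fintype.card_sum, Fintype.card_sigma, Fintype.card_prod, Fintype.card_sigma,
      Fintype.card_fin, Finset.mul_sum]
    simp [Fintype.card_prod]
  rw [h5]
  have h6 : ∑ j : Fin (d / 4 + 1), nu d j ^ (j : ℕ) * nu d j ^ (j : ℕ) ≤ (d / 4 + 1) * S := by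
    refine (Finset.sum_le_card_nsmul _ _ S fun j _ => h2 j).trans ?_
    simp
  have h7 : ∑ j : Fin (d / 4 + 1), n * nu d j ^ (j : ℕ) ≤ (d / 4 + 1) * S := by
    refine (Finset.sum_le_card_nsmul _ _ S fun j _ => h3 j).trans ?_
    simp
  calc _ ≤ (d / 4 + 1) * S + (d / 4 + 1) * S := Nat.add_le_add h6 h7
    _ = _ := by ring

lemma growth {e : ℕ} (he : 20 ≤ e) : (e * (3 * e + 5)) ^ 2 ≤ 2 * 2 ^ e := by
  induction e, he using Nat.le_induction with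
  | base => norm_num
  | succ e he ih =>
    have h1 : 5 * ((e + 1) * (3 * (e + 1) + 5)) ≤ 7 * (e * (3 * e + 5)) := by nlinarith
    have h2 : (5 * ((e + 1) * (3 * (e + 1) + 5))) ^ 2 ≤ (7 * (e * (3 * e + 5))) ^ 2 :=
      Nat.pow_le_pow_left h1 2
    have h3 : (5 * ((e + 1) * (3 * (e + 1) + 5))) ^ 2 =
        25 * ((e + 1) * (3 * (e + 1) + 5)) ^ 2 := by ring
    have h4 : (7 * (e * (3 * e + 5))) ^ 2 = 49 * (e * (3 * e + 5)) ^ 2 := by ring
    rw [h3, h4] at h2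
    rw [pow_succ 2 e]
    omega

lemma pow8 {d : ℕ} (hd : 60 ≤ d) : d ^ 8 ≤ 2 ^ d := by
  induction d, hd using Nat.le_induction with
  | base => norm_num
  | succ d hd ih =>
    have h1 : 12 * (d + 1) ≤ 13 * d := by omega
    have h2 := Nat.pow_le_pow_left h1 8
    rw [mul_pow, mul_pow] at h2
    norm_num at h2
    rw [pow_succ 2]
    omega

lemma numer {d e a : ℕ} (hd : 60 ≤ d) (he : e = (d + 1) / 3) (ha : a + e = d + 1) :
    2 * (d / 4 + 1) * Nat.sqrt (2 ^ d) < a.choose e := by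
  by_contra hcon
  push Not at hcon
  set K := d / 4 with hK
  set S := Nat.sqrt (2 ^ d) with hS
  have he20 : 20 ≤ e := by omega
  have h1 : Nat.centralBinom e ≤ a.choose e := by
    rw [Nat.centralBinom]
    exact Nat.choose_le_choose e (by omega)
  have h2 := Nat.four_pow_lt_mul_centralBinom e (by omega)
  have h3 : 4 ^ e < e * (2 * (K + 1) * S) :=
    h2.trans_le (Nat.mul_le_mul_left _ (h1.trans hcon))
  have h4 : (4 ^ e) ^ 2 < (e * (2 * (K + 1) * S)) ^ 2 := Nat.pow_lt_pow_left h3 (by norm_num)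
  have h5 : S * S ≤ 2 ^ d := Nat.sqrt_le _
  have h6 : 2 ^ d ≤ 2 * 8 ^ e := by
    calc 2 ^ d ≤ 2 ^ (3 * e + 1) := Nat.pow_le_pow_right (by norm_num) (by omega)
      _ = 2 * 8 ^ e := by rw [pow_succ, pow_mul]; norm_num [mul_comm]
  have h7 : 4 * (K + 1) ≤ 3 * e + 5 := by omega
  have h8 : (e * (2 * (K + 1) * S)) ^ 2 * 4 = (e * (4 * (K + 1))) ^ 2 * (S * S) := by ring
  have h9 : (e * (4 * (K + 1))) ^ 2 ≤ (e * (3 * e + 5)) ^ 2 :=
    Nat.pow_le_pow_left (Nat.mul_le_mul_left _ h7) 2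
  have h10 := growth he20
  have h11 : (e * (4 * (K + 1))) ^ 2 * (S * S) ≤ (2 * 2 ^ e) * (2 * 8 ^ e) :=
    Nat.mul_le_mul (h9.trans h10) (h5.trans h6)
  have h12 : (4 ^ e) ^ 2 = 2 ^ e * 8 ^ e := by
    rw [← pow_mul, mul_comm e 2, pow_mul, ← mul_pow]
    norm_num
  have h13 : (2 * 2 ^ e) * (2 * 8 ^ e) = 4 * (2 ^ e * 8 ^ e) := by ring
  rw [h12] at h4
  rw [h13] at h11
  omega

/-- the number of parameters is smaller than the number of coefficients -/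
lemma params {d e a : ℕ} (hd : 60 ≤ d) (he : e = (d + 1) / 3) (ha : a + e = d + 1) :
    Fintype.card (Pr (d / 4) (nu d) (a + 1)) < Fintype.card (Sq a e) := by
  have h1 : (a + 1) ^ 4 ≤ 2 ^ d := by
    calc (a + 1) ^ 4 ≤ d ^ 4 := Nat.pow_le_pow_left (by omega) _
      _ ≤ d ^ 8 := Nat.pow_le_pow_right (by omega) (by norm_num)
      _ ≤ 2 ^ d := pow8 hd
  refine (card_le (by omega) h1).trans_lt ?_
  rw [Fintype.card_finset_len, Fintype.card_fin]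
  exact numer hd he ha

end Pool.Agent.Y86.QE
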